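import Pool.Agent.U466.TP5

/-!
# Almost dense graphs with quasirandom four-cycle count, bounded counts, and few triangles

For every `q n → 0` with `q n = n ^ (-o(1))` there are graphs `G n` on `n` vertices of density
`p n ~ q n` whose normalised four-cycle count tends to `1`, all of whose normalised subgraph counts
are bounded, and whose normalised triangle count tends to `0`.

Construction: every vertex `u` gets `m` independent random signs `x u 1, ..., x u m`, and `u v` is an
edge with probability `q * ∏ i, (1 - ε * x u i * x v i)`, independently. The expected normalised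
count of `F` is the `m`-th power of the average of `∏ (1 - ε * x u * x v)` over the edges of `F`,
which is `1 - ε ^ 3` for the triangle, `1 + ε ^ 4` for the four-cycle, and at most
`1 + 2 ^ e(F) * ε ^ 4` in general. One takes `m * ε ^ 3 → ∞` and `m * ε ^ 4 → 0`.
-/

set_option autoImplicit false

open Filter Topology

namespace Pool.Agent.Results.MP_e47ff0_co.FewTriangles

/-- `emb(F, G)`: the number of injective maps `V(F) → V(G)` sending edges to edges. -/
noncomputable def emb {k n : ℕ} (F : SimpleGraph (Fin k)) (G : SimpleGraph (Fin n)) : ℕ :=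
  {f : Fin k → Fin n | Function.Injective f ∧ ∀ i j, F.Adj i j → G.Adj (f i) (f j)}.ncard

/-- The normalised count `s_p(F, G) = emb(F, G) / (n (n-1) ... (n-k+1) p ^ e(F))`. -/
noncomputable def s (p : ℝ) {k n : ℕ} (F : SimpleGraph (Fin k)) (G : SimpleGraph (Fin n)) : ℝ :=
  (emb F G : ℝ) / ((n.descFactorial k : ℝ) * p ^ F.edgeSet.ncard)

/-- Conditions 1, 2, 3 of the problem for a density `p n = n ^ (-o(1))` in `(0, 1]` and graphs
`G n` on `n` vertices. -/
structure Admissible (p : ℕ → ℝ) (G : ∀ n : ℕ, SimpleGraph (Fin n)) : Prop where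
  pos : ∀ n, 0 < p n
  le_one : ∀ n, p n ≤ 1
  almostDense : Tendsto (fun n : ℕ => Real.log (1 / p n) / Real.log n) atTop (𝓝 0)
  edges : ∀ n : ℕ, ((G n).edgeSet.ncard : ℝ) = p n * (n.choose 2 : ℕ)
  fourCycles : Tendsto (fun n : ℕ => s (p n) (SimpleGraph.cycleGraph 4) (G n)) atTop (𝓝 1)
  bounded : ∀ (k : ℕ) (F : SimpleGraph (Fin k)), ∃ C : ℝ, ∀ n : ℕ, s (p n) F (G n) ≤ C

/-- The assertion of Q1. -/
def Q1 : Prop :=
  ∀ (p : ℕ → ℝ) (G : ∀ n : ℕ, SimpleGraph (Fin n)), Admissible p G →
    Tendsto (fun n : ℕ => s (p n) (SimpleGraph.cycleGraph 3) (G n)) atTop (𝓝 1)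

open Pool.Agent.U466.TP in
lemma ncard_eq {k : ℕ} (F : SimpleGraph (Fin k)) : F.edgeSet.ncard = (EF F).card := by
  rw [← Set.ncard_coe_finset]
  congr 1
  ext e
  simp [mem_EF]

open Pool.Agent.U466.TP in
lemma s_eq (p : ℝ) {k n : ℕ} (F : SimpleGraph (Fin k)) (G : SimpleGraph (Fin n)) :
    s p F G = cnt F G / (n.descFactorial k * p ^ (EF F).card) := by
  unfold s
  rw [ncard_eq]
  rfl

open Pool.Agent.U466.TP in
lemma cnt_K2_edges {n : ℕ} (G : SimpleGraph (Fin n)) :
    cnt (⊤ : SimpleGraph (Fin 2)) G = 2 * (G.edgeSet.ncard : ℝ) := by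
  classical
  rw [cnt_K2, ← Nat.cast_sum, SimpleGraph.sum_degrees_eq_twice_card_edges,
    ← SimpleGraph.coe_edgeFinset, Set.ncard_coe_finset]
  push_cast
  ring

lemma edges_le {n : ℕ} (G : SimpleGraph (Fin n)) : G.edgeSet.ncard ≤ n.choose 2 := by
  classical
  rw [← SimpleGraph.coe_edgeFinset, Set.ncard_coe_finset]
  simpa using G.card_edgeFinset_le_card_choose_two

lemma edges_top (n : ℕ) : (⊤ : SimpleGraph (Fin n)).edgeSet.ncard = n.choose 2 := by
  classical
  rw [← SimpleGraph.coe_edgeFinset, Set.ncard_coe_finset,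
    SimpleGraph.card_edgeFinset_top_eq_card_choose_two]
  simp

/-- The density `q n = n ^ (-o(1))` satisfies `n * q n ^ 3 → ∞`. -/
lemma cube_tendsto (q : ℕ → ℝ) (hq0 : ∀ n, 0 < q n)
    (hlog : Tendsto (fun n : ℕ => Real.log (1 / q n) / Real.log n) atTop (𝓝 0)) :
    Tendsto (fun n : ℕ => (n : ℝ) * q n ^ 3) atTop atTop := by
  have hL : Tendsto (fun n : ℕ => Real.log (n : ℝ)) atTop atTop :=
    Real.tendsto_log_atTop.comp tendsto_natCast_atTop_atTop
  have h1 : Tendsto (fun n : ℕ => Real.log (n : ℝ) * (1 / 2)) atTop atTop :=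
    hL.atTop_mul_const (by norm_num)
  have h2 : Tendsto (fun n : ℕ => Real.exp (Real.log (n : ℝ) * (1 / 2))) atTop atTop :=
    Real.tendsto_exp_atTop.comp h1
  apply tendsto_atTop_mono' _ _ h2
  filter_upwards [eventually_ge_atTop 2, hlog.eventually (ge_mem_nhds (show (0 : ℝ) < 1 / 6 by
    norm_num))] with n hn hr
  have hn' : (2 : ℝ) ≤ n := by exact_mod_cast hn
  have hlogn : 0 < Real.log n := Real.log_pos (by linarith)
  have hq := hq0 n
  rw [div_le_iff₀ hlogn, one_div, Real.log_inv] at hr
  have h3 : Real.log ((n : ℝ) * q n ^ 3) = Real.log n + 3 * Real.log (q n) := by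
    rw [Real.log_mul (by positivity) (by positivity), Real.log_pow]
    push_cast
    ring
  have h4 : (n : ℝ) * q n ^ 3 = Real.exp (Real.log ((n : ℝ) * q n ^ 3)) :=
    (Real.exp_log (by positivity)).symm
  rw [h4]
  apply Real.exp_le_exp.2
  rw [h3]
  linarith

/-- The construction: for every density `q n → 0` with `q n = n ^ (-o(1))`. -/
theorem construction (q : ℕ → ℝ) (hq0 : ∀ n, 0 < q n) (hq : Tendsto q atTop (𝓝 0))
    (hlog : Tendsto (fun n : ℕ => Real.log (1 / q n) / Real.log n) atTop (𝓝 0)) :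
    ∃ (p : ℕ → ℝ) (G : ∀ n : ℕ, SimpleGraph (Fin n)), Admissible p G ∧
      Tendsto (fun n => p n / q n) atTop (𝓝 1) ∧
      Tendsto (fun n : ℕ => s (p n) (SimpleGraph.cycleGraph 3) (G n)) atTop (𝓝 0) := by
  classical
  obtain ⟨φ, hφ⟩ := exists_surjective_nat (Σ k : ℕ, SimpleGraph (Fin k))
  obtain ⟨G, h2, h4, h3, hb⟩ := Pool.Agent.U466.TP.seq_exists q hq0 hq (cube_tendsto q hq0 hlog)
    (fun j => Fin (φ j).1) (fun j => (φ j).2)
  -- repair the finitely many graphs without edges
  set G' : ∀ n : ℕ, SimpleGraph (Fin n) := fun n => if (G n).edgeSet.ncard = 0 then ⊤ else G n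
    with hG'
  set p : ℕ → ℝ := fun n =>
    if n < 2 then 1 else ((G' n).edgeSet.ncard : ℝ) / (n.choose 2 : ℕ) with hp
  have hev : ∀ᶠ n in atTop, G' n = G n ∧ 2 ≤ n := by
    filter_upwards [h2.eventually (lt_mem_nhds (show (0 : ℝ) < 1 by norm_num)),
      eventually_ge_atTop 2] with n hn hn2
    refine ⟨?_, hn2⟩
    simp only [hG']
    rw [if_neg]
    intro h0
    rw [cnt_K2_edges, h0] at hn
    simp at hn
  have hN : ∀ n, 2 ≤ n → (0 : ℝ) < (n.choose 2 : ℕ) := fun n hn => by
    exact_mod_cast Nat.choose_pos hn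
  have hG'pos : ∀ n, 2 ≤ n → 0 < (G' n).edgeSet.ncard := by
    intro n hn
    simp only [hG']
    split_ifs with h0
    · rw [edges_top]
      exact Nat.choose_pos hn
    · exact Nat.pos_of_ne_zero h0
  have hppos : ∀ n, 0 < p n := by
    intro n
    simp only [hp]
    split_ifs with h
    · exact one_pos
    · have h1 : (0 : ℝ) < (G' n).edgeSet.ncard := by exact_mod_cast hG'pos n (by omega)
      exact div_pos h1 (hN n (by omega))
  have hpval : ∀ n, 2 ≤ n → p n = ((G' n).edgeSet.ncard : ℝ) / (n.choose 2 : ℕ) := by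
    intro n hn
    simp only [hp]
    rw [if_neg (by omega)]
  -- `p / q → 1`
  have hratio : Tendsto (fun n => p n / q n) atTop (𝓝 1) := by
    refine h2.congr' ?_
    filter_upwards [hev] with n hn
    have hD2 : (n.descFactorial 2 : ℝ) = 2 * (n.choose 2 : ℕ) := by
      have h := Nat.descFactorial_eq_factorial_mul_choose n 2
      rw [h]
      push_cast
      norm_num
    rw [hpval n hn.2, hn.1, cnt_K2_edges, hD2]
    have h5 := hN n hn.2
    have h6 := hq0 n
    field_simp
  have hratio' : Tendsto (fun n => q n / p n) atTop (𝓝 1) := by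
    have := hratio.inv₀ one_ne_zero
    rw [inv_one] at this
    refine this.congr ?_
    intro n
    rw [inv_div]
  have hscale : ∀ (k : ℕ) (F : SimpleGraph (Fin k)) (n : ℕ),
      s (p n) F (G n) = s (q n) F (G n) * (q n / p n) ^ F.edgeSet.ncard := by
    intro k F n
    unfold s
    have h5 := hppos n
    have h6 := hq0 n
    rw [div_pow]
    by_cases hD : (n.descFactorial k : ℝ) = 0
    · rw [hD]
      simp
    · field_simp
  have hlim : ∀ (k : ℕ) (F : SimpleGraph (Fin k)) (c : ℝ),
      Tendsto (fun n : ℕ => s (q n) F (G n)) atTop (𝓝 c) →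
      Tendsto (fun n : ℕ => s (p n) F (G' n)) atTop (𝓝 c) := by
    intro k F c hc
    have h5 := hc.mul (hratio'.pow F.edgeSet.ncard)
    rw [one_pow, mul_one] at h5
    refine h5.congr' ?_
    filter_upwards [hev] with n hn
    rw [hn.1, hscale]
  refine ⟨p, G', ⟨hppos, ?_, ?_, ?_, ?_, ?_⟩, hratio, ?_⟩
  · -- `p ≤ 1`
    intro n
    simp only [hp]
    split_ifs with h
    · exact le_rfl
    · rw [div_le_one (hN n (by omega))]
      exact_mod_cast edges_le (G' n)
  · -- almost dense
    have h5 : Tendsto (fun n => Real.log (p n / q n)) atTop (𝓝 0) := by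
      have := (Real.continuousAt_log one_ne_zero).tendsto.comp hratio
      rwa [Real.log_one] at this
    have hL : Tendsto (fun n : ℕ => Real.log (n : ℝ)) atTop atTop :=
      Real.tendsto_log_atTop.comp tendsto_natCast_atTop_atTop
    have h6 : Tendsto (fun n : ℕ => Real.log (p n / q n) / Real.log n) atTop (𝓝 0) :=
      h5.div_atTop hL
    have h7 := hlog.sub h6
    rw [sub_zero] at h7
    refine h7.congr ?_
    intro n
    rw [← sub_div]
    congr 1
    rw [Real.log_div (hppos n).ne' (hq0 n).ne', one_div, one_div, Real.log_inv, Real.log_inv]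
    ring
  · -- the number of edges
    intro n
    by_cases hn : n < 2
    · have h0 : n.choose 2 = 0 := Nat.choose_eq_zero_of_lt hn
      have h1 : (G' n).edgeSet.ncard = 0 := by
        have := edges_le (G' n)
        omega
      rw [h0, h1]
      simp
    · rw [hpval n (by omega)]
      have := (hN n (by omega)).ne'
      field_simp
  · -- four-cycles
    apply hlim
    refine h4.congr ?_
    intro n
    rw [s_eq, Pool.Agent.U466.TP.card_EF_C4]
  · -- boundedness
    intro k F
    obtain ⟨j, hj⟩ := hφ ⟨k, F⟩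
    obtain ⟨C, hC⟩ := hb j
    have hC' : ∀ n, s (q n) F (G n) ≤ C := by
      intro n
      have h5 := hC n
      rw [s_eq]
      have key : ∀ x : (Σ k : ℕ, SimpleGraph (Fin k)), x = ⟨k, F⟩ →
          Pool.Agent.U466.TP.cnt x.2 (G n) / (n.descFactorial (Fintype.card (Fin x.1))
            * q n ^ (Pool.Agent.U466.TP.EF x.2).card)
          = Pool.Agent.U466.TP.cnt F (G n) / (n.descFactorial k
            * q n ^ (Pool.Agent.U466.TP.EF F).card) := by
        rintro x rfl
        rw [Fintype.card_fin]
      rw [key _ hj] at h5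
      exact h5
    have hC0 : 0 ≤ C := by
      refine le_trans ?_ (hC' 0)
      unfold s
      have := hq0 0
      positivity
    obtain ⟨N, hN'⟩ := eventually_atTop.1 (hev.and (hratio'.eventually
      (ge_mem_nhds (show (1 : ℝ) < 2 by norm_num))))
    have hs0 : ∀ n, 0 ≤ s (p n) F (G' n) := by
      intro n
      unfold s
      have := hppos n
      positivity
    refine ⟨C * 2 ^ F.edgeSet.ncard + ∑ i ∈ Finset.range N, s (p i) F (G' i), fun n => ?_⟩
    rcases Nat.lt_or_ge n N with hlt | hge
    · have h5 := Finset.single_le_sum (fun i _ => hs0 i) (Finset.mem_range.2 hlt)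
      have h6 : 0 ≤ C * 2 ^ F.edgeSet.ncard := by positivity
      linarith
    · obtain ⟨⟨h5, -⟩, h6⟩ := hN' n hge
      have h7 : 0 ≤ ∑ i ∈ Finset.range N, s (p i) F (G' i) := Finset.sum_nonneg fun i _ => hs0 i
      have h8 : s (p n) F (G' n) ≤ C * 2 ^ F.edgeSet.ncard := by
        rw [h5, hscale]
        have h9 : 0 ≤ q n / p n := (div_pos (hq0 n) (hppos n)).le
        apply mul_le_mul (hC' n) (pow_le_pow_left₀ h9 h6 _) (by positivity) hC0
      linarith
  · apply hlim
    refine h3.congr ?_
    intro n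
    rw [s_eq, Pool.Agent.U466.TP.card_EF_C3]

/-- **Theorem.** Q1 is false. More precisely, for every `q n → 0` with `q n = n ^ (-o(1))` there are
`p n ~ q n` and graphs `G n` on `n` vertices satisfying conditions 1, 2, 3 with density `p n`,
for which the normalised number of triangles tends to `0`. -/
theorem result : ¬ Q1 ∧
    ∀ q : ℕ → ℝ, (∀ n, 0 < q n) → Tendsto q atTop (𝓝 0) →
      Tendsto (fun n : ℕ => Real.log (1 / q n) / Real.log n) atTop (𝓝 0) →
      ∃ (p : ℕ → ℝ) (G : ∀ n : ℕ, SimpleGraph (Fin n)), Admissible p G ∧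
        Tendsto (fun n => p n / q n) atTop (𝓝 1) ∧
        Tendsto (fun n : ℕ => s (p n) (SimpleGraph.cycleGraph 3) (G n)) atTop (𝓝 0) := by
  refine ⟨?_, fun q hq0 hq hlog => construction q hq0 hq hlog⟩
  intro H
  -- the density `1 / log (n + 3)`
  have hl : ∀ n : ℕ, 1 < Real.log ((n : ℝ) + 3) := by
    intro n
    rw [Real.lt_log_iff_exp_lt (by positivity)]
    have h1 := Real.exp_one_lt_d9
    have h2 : (0 : ℝ) ≤ n := Nat.cast_nonneg n
    linarith
  have hlt : Tendsto (fun n : ℕ => Real.log ((n : ℝ) + 3)) atTop atTop :=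
    Real.tendsto_log_atTop.comp (tendsto_atTop_add_const_right _ _ tendsto_natCast_atTop_atTop)
  obtain ⟨p, G, hA, -, h0⟩ := construction (fun n => (Real.log ((n : ℝ) + 3))⁻¹)
    (fun n => inv_pos.2 (by linarith [hl n])) hlt.inv_tendsto_atTop (by
      have h1 : Tendsto (fun n : ℕ => Real.log (Real.log ((n : ℝ) + 3)) / Real.log ((n : ℝ) + 3))
          atTop (𝓝 0) := by
        have h2 : Tendsto (fun x : ℝ => Real.log x / x) atTop (𝓝 0) := by
          have := Real.isLittleO_log_id_atTop.tendsto_div_nhds_zero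
          simpa using this
        exact h2.comp hlt
      have h3 : Tendsto (fun n : ℕ =>
          3 * (Real.log (Real.log ((n : ℝ) + 3)) / Real.log ((n : ℝ) + 3))) atTop (𝓝 0) := by
        simpa using h1.const_mul 3
      refine tendsto_of_tendsto_of_tendsto_of_le_of_le' tendsto_const_nhds h3 ?_ ?_
      · filter_upwards [eventually_ge_atTop 2] with n hn
        have hn' : (2 : ℝ) ≤ n := by exact_mod_cast hn
        rw [one_div, inv_inv]
        exact div_nonneg (Real.log_nonneg (hl n).le) (Real.log_nonneg (by linarith))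
      · filter_upwards [eventually_ge_atTop 2] with n hn
        have hn' : (2 : ℝ) ≤ n := by exact_mod_cast hn
        rw [one_div, inv_inv]
        have hlogn : 0 < Real.log n := Real.log_pos (by linarith)
        have h4 : Real.log ((n : ℝ) + 3) ≤ 3 * Real.log n := by
          have : Real.log ((n : ℝ) + 3) ≤ Real.log ((n : ℝ) ^ 3) := by
            apply Real.log_le_log (by linarith)
            nlinarith [mul_nonneg (show (0 : ℝ) ≤ n - 2 by linarith)
              (show (0 : ℝ) ≤ n by linarith), sq_nonneg ((n : ℝ) - 2)]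
          rw [Real.log_pow] at this
          exact_mod_cast this
        have h5 : 0 ≤ Real.log (Real.log ((n : ℝ) + 3)) := Real.log_nonneg (hl n).le
        have h6 := hl n
        rw [div_le_iff₀ hlogn]
        have h7 : 3 * (Real.log (Real.log ((n : ℝ) + 3)) / Real.log ((n : ℝ) + 3)) * Real.log n
            = Real.log (Real.log ((n : ℝ) + 3)) * (3 * Real.log n / Real.log ((n : ℝ) + 3)) := by
          field_simp
        rw [h7]
        have h8 : 1 ≤ 3 * Real.log n / Real.log ((n : ℝ) + 3) := by
          rw [one_le_div (by linarith)]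
          exact h4
        nlinarith)
  have := tendsto_nhds_unique (H p G hA) h0
  norm_num at this

end Pool.Agent.Results.MP_e47ff0_co.FewTriangles
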